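import Pool.Agent.H87.SA.Coord

/-! # Integer coordinates on the ring of integers of a field with two generators -/

namespace Pool.Agent.H8.KF

open Finset Polynomial NumberField

/-- the products of small powers of the two generators span -/
theorem span2 {L : Type} [Field L] [NumberField L] (x1 x2 : L) (g1 g2 : ℚ[X]) (hm1 : g1.Monic)
    (hm2 : g2.Monic) (h1 : aeval x1 g1 = 0) (h2 : aeval x2 g2 = 0)
    (hadj : Algebra.adjoin ℚ {x1, x2} = ⊤) :
    (⊤ : Submodule ℚ L) ≤ Submodule.span ℚ {z | ∃ i < g1.natDegree, ∃ j < g2.natDegree,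
      z = x1 ^ i * x2 ^ j} := by
  classical
  have e1 := Submodule.span_range_natDegree_eq_adjoin (R := ℚ) hm1 h1
  have e2 := Submodule.span_range_natDegree_eq_adjoin (R := ℚ) hm2 h2
  have e3 := Algebra.adjoin_union_coe_submodule ℚ ({x1} : Set L) {x2}
  rw [Set.singleton_union, hadj, ← e1, ← e2, Submodule.span_mul_span] at e3
  have e4 : (⊤ : Submodule ℚ L) = Subalgebra.toSubmodule (⊤ : Subalgebra ℚ L) := rfl
  rw [e4, e3]
  apply Submodule.span_mono
  rintro z ⟨a, ha, b, hb, rfl⟩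
  rw [Finset.mem_coe, Finset.mem_image] at ha hb
  obtain ⟨i, hi, rfl⟩ := ha
  obtain ⟨j, hj, rfl⟩ := hb
  exact ⟨i, Finset.mem_range.1 hi, j, Finset.mem_range.1 hj, rfl⟩

theorem exists_coord2 {L : Type} [Field L] [NumberField L] {n : ℕ} (s1 s2 : 𝓞 L)
    (f1 f2 : ℤ[X]) (hm1 : f1.Monic) (hm2 : f2.Monic) (hd1 : f1.natDegree = n)
    (hd2 : f2.natDegree = n) (h1 : aeval s1 f1 = 0) (h2 : aeval s2 f2 = 0)
    (hadj : Algebra.adjoin ℚ {(s1 : L), (s2 : L)} = ⊤) {Y1 Y2 : ℝ} (hY1 : 1 ≤ Y1) (hY2 : 1 ≤ Y2)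
    (hs1 : house (s1 : L) ≤ Y1) (hs2 : house (s2 : L) ≤ Y2) :
    ∃ (κ : Type) (_ : Fintype κ) (c : 𝓞 L →+ (κ → ℤ)), Fintype.card κ = Module.finrank ℚ L ∧
      Function.Injective c ∧ ∀ a l, |((c a l : ℤ) : ℝ)| ≤
        (Module.finrank ℚ L * (Y1 ^ n * Y2 ^ n)) * house (a : L) := by
  classical
  have h1' : aeval (s1 : L) (f1.map (algebraMap ℤ ℚ)) = 0 := by
    rw [aeval_map_algebraMap]
    have := congrArg (algebraMap (𝓞 L) L) h1
    rwa [← aeval_algebraMap_apply, map_zero] at this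
  have h2' : aeval (s2 : L) (f2.map (algebraMap ℤ ℚ)) = 0 := by
    rw [aeval_map_algebraMap]
    have := congrArg (algebraMap (𝓞 L) L) h2
    rwa [← aeval_algebraMap_apply, map_zero] at this
  have hspan := span2 (s1 : L) (s2 : L) _ _ (hm1.map (algebraMap ℤ ℚ)) (hm2.map (algebraMap ℤ ℚ))
    h1' h2' hadj
  set B := Module.Basis.ofSpan hspan with hB
  have hfin : Finite ((linearIndepOn_empty ℚ id).extend (Set.empty_subset
    {z : L | ∃ i < (f1.map (algebraMap ℤ ℚ)).natDegree, ∃ j < (f2.map (algebraMap ℤ ℚ)).natDegree,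
      z = (s1 : L) ^ i * (s2 : L) ^ j})) := Module.Finite.finite_basis B
  let hft := Fintype.ofFinite ((linearIndepOn_empty ℚ id).extend (Set.empty_subset
    {z : L | ∃ i < (f1.map (algebraMap ℤ ℚ)).natDegree, ∃ j < (f2.map (algebraMap ℤ ℚ)).natDegree,
      z = (s1 : L) ^ i * (s2 : L) ^ j}))
  have hb : ∀ l, ∃ w : 𝓞 L, (w : L) = B l ∧ house (w : L) ≤ Y1 ^ n * Y2 ^ n := by
    intro l
    obtain ⟨i, hi, j, hj, hl⟩ := Module.Basis.ofSpan_subset hspan ⟨l, rfl⟩
    rw [hm1.natDegree_map, hd1] at hi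
    rw [hm2.natDegree_map, hd2] at hj
    refine ⟨s1 ^ i * s2 ^ j, ?_, ?_⟩
    · rw [hB, hl]
      simp
    · have e1 : ((s1 ^ i * s2 ^ j : 𝓞 L) : L) = (s1 : L) ^ i * (s2 : L) ^ j := by simp
      rw [e1]
      refine (house_mul_le _ _).trans ?_
      refine mul_le_mul ?_ ?_ (house_nonneg _) (by positivity)
      · exact (house_pow_le _ _).trans ((pow_le_pow_left₀ (house_nonneg _) hs1 _).trans
          (pow_le_pow_right₀ hY1 hi.le))
      · exact (house_pow_le _ _).trans ((pow_le_pow_left₀ (house_nonneg _) hs2 _).trans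
          (pow_le_pow_right₀ hY2 hj.le))
  choose w hw1 hw2 using hb
  let c : 𝓞 L →+ (((linearIndepOn_empty ℚ id).extend (Set.empty_subset
    {z : L | ∃ i < (f1.map (algebraMap ℤ ℚ)).natDegree, ∃ j < (f2.map (algebraMap ℤ ℚ)).natDegree,
      z = (s1 : L) ^ i * (s2 : L) ^ j})) → ℤ) :=
    { toFun := fun a l => Algebra.trace ℤ (𝓞 L) (a * w l)
      map_zero' := by
        funext l
        simp
      map_add' := by
        intro a b
        funext l
        simp only [Pi.add_apply]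
        rw [add_mul, map_add] }
  refine ⟨_, hft, c, ?_, ?_, ?_⟩
  · exact (Module.finrank_eq_card_basis B).symm
  · rw [injective_iff_map_eq_zero]
    intro a ha
    have hL : (Algebra.traceForm ℚ L (a : L) : L →ₗ[ℚ] ℚ) = 0 := by
      refine B.ext fun l => ?_
      rw [LinearMap.zero_apply, Algebra.traceForm_apply, ← hw1]
      have h3 : Algebra.trace ℤ (𝓞 L) (a * w l) = 0 := congrFun ha l
      have h4 := Algebra.coe_trace_int (a * w l)
      rw [h3] at h4
      have h5 : ((a * w l : 𝓞 L) : L) = (a : L) * (w l : L) := by simp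
      rw [h5] at h4
      rw [← h4]
      simp
    have h6 : (a : L) = 0 := by
      have hnd := traceForm_nondegenerate ℚ L
      exact hnd.1 a fun b => by rw [hL, LinearMap.zero_apply]
    exact_mod_cast h6
  · intro a l
    refine (Pool.Agent.H87.SA.co_bound (a * w l)).trans ?_
    have h4 : ((a * w l : 𝓞 L) : L) = (a : L) * (w l : L) := by simp
    rw [h4]
    have h5 : house ((a : L) * (w l : L)) ≤ house (a : L) * (Y1 ^ n * Y2 ^ n) :=
      (house_mul_le _ _).trans (mul_le_mul_of_nonneg_left (hw2 l) (house_nonneg _))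
    calc (Module.finrank ℚ L : ℝ) * house ((a : L) * (w l : L))
        ≤ (Module.finrank ℚ L : ℝ) * (house (a : L) * (Y1 ^ n * Y2 ^ n)) :=
          mul_le_mul_of_nonneg_left h5 (Nat.cast_nonneg _)
      _ = _ := by ring

end Pool.Agent.H8.KF
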