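import Pool.Agent.H8.KW.RepelR

/-! # A point above the polynomial bound is exceptional: version without a number field -/

namespace Pool.Agent.H8.KF

open Finset Polynomial Pool.Agent.H72.ES

/-- the real root of the leading form belonging to a real root of the normalised one -/
theorem real_root {n : ℕ} (hn : 1 ≤ n) (G : ℕ → ℕ → ℤ) (ha : G 0 n ≠ 0) (θ : ℝ)
    (hθ : aeval θ (lead n (nrm n G)) = 0) :
    aeval (θ / ((G 0 n : ℤ) : ℝ)) (leadQ n G) = 0 := by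
  have haR : ((G 0 n : ℤ) : ℝ) ≠ 0 := by exact_mod_cast ha
  have h1 := eval_nrm hn G (algebraMap ℤ ℝ) (algebraMap ℚ ℝ) (θ / ((G 0 n : ℤ) : ℝ))
  have h2 : ((G 0 n : ℤ) : ℝ) * (θ / ((G 0 n : ℤ) : ℝ)) = θ := by field_simp
  rw [aeval_def] at hθ
  rw [h2, hθ] at h1
  rw [aeval_def]
  exact (mul_eq_zero.1 h1.symm).resolve_left (pow_ne_zero _ haR)

/-- A point above the polynomial bound is an exceptional point of the normalised curve. -/
theorem excR_of_big {n : ℕ}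
    (hn : 4 ≤ n) (G : ℕ → ℕ → ℤ) (haG : G 0 n ≠ 0) (hirr : Irreducible (leadQ n G))
    (H : ℕ) (hH : 2 ≤ H)
    (hG : ∀ i j, i + j ≤ n → |G i j| ≤ (H : ℤ)) (x y : ℤ) (hz : ev n G x y = 0)
    (hbig0 : ¬ max |x| |y| ≤ (H : ℤ) ^ (10 ^ 7 * n ^ 8)) :
    ∃ (f : ℤ[X]) (θ : ℝ) (F : ℕ → ℕ → ℤ) (y' : ℤ),
      ExcR n (2 * H ^ n) f θ F x y' ∧ aeval (θ / ((G 0 n : ℤ) : ℝ)) (leadQ n G) = 0 ∧
      |(x : ℝ)| ≤ ((max |x| |y| : ℤ) : ℝ) ∧
      ((max |x| |y| : ℤ) : ℝ) ≤ |(x : ℝ)| ^ 2 := by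
  set f := lead n (nrm n G) with hfdef
  have hf : Irreducible f := lead_nrm_irreducible (by omega) G haG hirr
  set a := G 0 n with hadef
  set M : ℕ := H ^ n with hM
  set Q : ℕ := 2 * M with hQ
  have hM2 : 2 ^ n ≤ M := Nat.pow_le_pow_left hH n
  have hfam : Fam n Q M f (nrm n G) :=
    { hn := hn
      hQ := by omega
      hM := le_refl _
      irr := hf
      lead_eq := rfl
      top := by simp [nrm]
      bound := fun i j hij => nrm_bound (by omega) G H (by omega) hG i j hij }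
  have hN := hfam.norml
  have hz' : ev n (nrm n G) x (a * y) = 0 := by
    rw [hadef, ev_nrm (by omega), hz, mul_zero]
  have hy' : |y| ≤ |a * y| := by
    rw [abs_mul]
    have : 1 ≤ |a| := Int.one_le_abs haG
    nlinarith [abs_nonneg y]
  have hmax : max |x| |y| ≤ max |x| |a * y| := max_le_max le_rfl hy'
  have hQ1 := one_le_QR hfam.hn hfam.hQ
  have hb1 := one_le_bb hfam.hn hfam.hQ
  have hHR : (1 : ℝ) ≤ H := by exact_mod_cast (by omega : 1 ≤ H)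
  set T : ℕ := 240000 * n ^ 5 with hT
  have hn5 : n ≤ n ^ 5 := Nat.le_self_pow (by norm_num) n
  have hsmall : (Q : ℝ) ^ 2 * bb n Q ^ T ≤ ((max |x| |a * y| : ℤ) : ℝ) := by
    by_contra hsmall
    push Not at hsmall
    apply hbig0
    have h1 : ((max |x| |y| : ℤ) : ℝ) ≤ (((H : ℤ) ^ (10 ^ 7 * n ^ 8) : ℤ) : ℝ) := by
      have h2 : ((max |x| |y| : ℤ) : ℝ) ≤ ((max |x| |a * y| : ℤ) : ℝ) := by exact_mod_cast hmax
      refine (h2.trans hsmall.le).trans ?_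
      have hQH : (Q : ℝ) ≤ (H : ℝ) ^ (n + 1) := by
        rw [hQ, hM]
        push_cast
        have : (2 : ℝ) ≤ H := by exact_mod_cast hH
        calc 2 * (H : ℝ) ^ n ≤ H * (H : ℝ) ^ n := by gcongr
          _ = (H : ℝ) ^ (n + 1) := by ring
      have hQ0 : (0 : ℝ) ≤ Q := Nat.cast_nonneg _
      unfold bb
      push_cast
      calc (Q : ℝ) ^ 2 * ((Q : ℝ) ^ (7 * n ^ 2)) ^ T = (Q : ℝ) ^ (2 + 1680000 * n ^ 7) := by
            rw [← pow_mul, ← pow_add, hT]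
            congr 1
            ring
        _ ≤ ((H : ℝ) ^ (n + 1)) ^ (2 + 1680000 * n ^ 7) := pow_le_pow_left₀ hQ0 hQH _
        _ = (H : ℝ) ^ ((n + 1) * (2 + 1680000 * n ^ 7)) := by rw [← pow_mul]
        _ ≤ (H : ℝ) ^ (10 ^ 7 * n ^ 8) := by
            refine pow_le_pow_right₀ hHR ?_
            have h4 : 2 + 1680000 * n ^ 7 ≤ 1680001 * n ^ 7 := by
              have : 2 ≤ n ^ 7 := by
                calc 2 ≤ 4 ^ 7 := by norm_num
                  _ ≤ n ^ 7 := Nat.pow_le_pow_left hn 7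
              omega
            calc (n + 1) * (2 + 1680000 * n ^ 7) ≤ (2 * n) * (1680001 * n ^ 7) :=
                  Nat.mul_le_mul (by omega) h4
              _ = 3360002 * n ^ 8 := by ring
              _ ≤ 10 ^ 7 * n ^ 8 := Nat.mul_le_mul_right _ (by norm_num)
    exact_mod_cast h1
  have hT250 : 250 * n ≤ T := by
    rw [hT]; omega
  have hbig : (Q : ℝ) ^ 2 * bb n Q ^ (250 * n) ≤ ((max |x| |a * y| : ℤ) : ℝ) := by
    refine le_trans ?_ hsmall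
    exact mul_le_mul_of_nonneg_left (pow_le_pow_right₀ hb1 hT250) (by positivity)
  have hs0 : |ev n (nrm n G) x (a * y)| ≤ (M : ℤ) := by
    rw [hz', abs_zero]; exact Int.natCast_nonneg M
  obtain ⟨hx250, θ, hθ, hnear⟩ := far_point hfam x (a * y) hs0 hbig
  have hroot := real_root (by omega) G haG θ hθ
  -- slope
  have hlt : (Q : ℤ) ^ 5 < max |x| |a * y| := by
    have : (Q : ℝ) ^ 5 < ((max |x| |a * y| : ℤ) : ℝ) := by
      have hQb5 : (Q : ℝ) ^ 5 ≤ bb n Q := Qpow_le_bb hfam.hn hfam.hQ (by nlinarith)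
      have hbT : bb n Q ≤ bb n Q ^ T := le_self_pow₀ hb1 (by omega)
      have hQ16 := sixteen_leR hfam.hn hfam.hQ
      have e1 : (1 : ℝ) < (Q : ℝ) ^ 2 := one_lt_pow₀ (by linarith) (by norm_num)
      have e2 : 0 < bb n Q ^ T := by positivity
      calc (Q : ℝ) ^ 5 ≤ bb n Q ^ T := hQb5.trans hbT
        _ < (Q : ℝ) ^ 2 * bb n Q ^ T := by nlinarith
        _ ≤ _ := hsmall
    exact_mod_cast this
  have hslope := slope_bound hN x (a * y) (by
    rw [hz', abs_zero]; exact Int.natCast_nonneg Q) hlt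
  have hslopeR : |((a * y : ℤ) : ℝ)| ≤ (Q : ℝ) ^ 2 * |(x : ℝ)| := by exact_mod_cast hslope
  have e3 : ((max |x| |a * y| : ℤ) : ℝ) = max |(x : ℝ)| |((a * y : ℤ) : ℝ)| := by
    push_cast; rfl
  have e1 : ((max |x| |a * y| : ℤ) : ℝ) ≤ (Q : ℝ) ^ 2 * |(x : ℝ)| := by
    rw [e3]
    refine max_le ?_ hslopeR
    have e2 : (1 : ℝ) ≤ (Q : ℝ) ^ 2 := one_le_pow₀ hQ1
    nlinarith [abs_nonneg (x : ℝ)]
  have hxT : bb n Q ^ T ≤ |(x : ℝ)| :=
    le_of_mul_le_mul_left (hsmall.trans e1) (by positivity)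
  have hexc : ExcR n Q f θ (nrm n G) x (a * y) :=
    ⟨hN, hf, hθ, hz', hnear, hxT⟩
  have hQ2x : (Q : ℝ) ^ 2 ≤ |(x : ℝ)| := by
    have hQb : (Q : ℝ) ^ 2 ≤ bb n Q := Qpow_le_bb hfam.hn hfam.hQ (by nlinarith)
    have hbT : bb n Q ≤ bb n Q ^ T := le_self_pow₀ hb1 (by omega)
    exact hQb.trans (hbT.trans hxT)
  refine ⟨f, θ, nrm n G, a * y, hexc, hroot, ?_, ?_⟩
  · push_cast
    exact le_max_left _ _
  · have h2 : ((max |x| |y| : ℤ) : ℝ) ≤ ((max |x| |a * y| : ℤ) : ℝ) := by exact_mod_cast hmax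
    calc ((max |x| |y| : ℤ) : ℝ) ≤ (Q : ℝ) ^ 2 * |(x : ℝ)| := h2.trans e1
      _ ≤ |(x : ℝ)| * |(x : ℝ)| := mul_le_mul_of_nonneg_right hQ2x (abs_nonneg _)
      _ = |(x : ℝ)| ^ 2 := by ring

end Pool.Agent.H8.KF
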