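import Pool.Agent.H8.KW.Repel

/-! # The field generated by a root of an integer polynomial -/

namespace Pool.Agent.H8.KF

open Finset Polynomial Pool.Agent.H72.ES NumberField

variable (g : ℤ[X])

theorem gQ_irr {g : ℤ[X]} (hg : Irreducible g) (hd : 3 ≤ g.natDegree) :
    Irreducible (g.map (algebraMap ℤ ℚ)) := by
  have hp : g.IsPrimitive := hg.isPrimitive (by omega)
  exact (IsPrimitive.Int.irreducible_iff_irreducible_map_cast hp).1 hg

theorem gQ_deg {g : ℤ[X]} : (g.map (algebraMap ℤ ℚ)).natDegree = g.natDegree :=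
  natDegree_map_eq_of_injective (algebraMap ℤ ℚ).injective_int g

theorem gQ_num {g : ℤ[X]} [hf : Fact (Irreducible (g.map (algebraMap ℤ ℚ)))] :
    NumberField (AdjoinRoot (g.map (algebraMap ℤ ℚ))) :=
  { to_charZero := algebraRat.charZero _
    to_finiteDimensional := (AdjoinRoot.powerBasis hf.out.ne_zero).finite }

theorem gQ_fin {g : ℤ[X]} [hf : Fact (Irreducible (g.map (algebraMap ℤ ℚ)))] :
    Module.finrank ℚ (AdjoinRoot (g.map (algebraMap ℤ ℚ))) = g.natDegree := by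
  have h1 := (AdjoinRoot.powerBasis hf.out.ne_zero).finrank
  rw [AdjoinRoot.powerBasis_dim, gQ_deg] at h1
  convert h1

theorem gQ_root {g : ℤ[X]} :
    aeval (AdjoinRoot.root (g.map (algebraMap ℤ ℚ))) g = 0 := by
  have h := AdjoinRoot.eval₂_root (g.map (algebraMap ℤ ℚ))
  rw [eval₂_map] at h
  rw [aeval_def, ← h]
  congr 1

/-- the integral generator -/
theorem gQ_gen {g : ℤ[X]} (hg0 : g ≠ 0)
    [hf : Fact (Irreducible (g.map (algebraMap ℤ ℚ)))]
    [NumberField (AdjoinRoot (g.map (algebraMap ℤ ℚ)))] {H : ℕ}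
    (hH : ∀ i, |g.coeff i| ≤ (H : ℤ)) :
    ∃ z : 𝓞 (AdjoinRoot (g.map (algebraMap ℤ ℚ))),
      IntermediateField.adjoin ℚ {(z : AdjoinRoot (g.map (algebraMap ℤ ℚ)))} = ⊤ ∧
      house (z : AdjoinRoot (g.map (algebraMap ℤ ℚ))) ≤ 2 * (H : ℝ) := by
  set k := AdjoinRoot (g.map (algebraMap ℤ ℚ)) with hk
  set r : k := AdjoinRoot.root (g.map (algebraMap ℤ ℚ)) with hr
  set a : ℤ := g.leadingCoeff with ha
  have ha0 : a ≠ 0 := leadingCoeff_ne_zero.2 hg0
  have hint : IsIntegral ℤ (a • r) := isIntegral_leadingCoeff_smul g r gQ_root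
  set z : 𝓞 k := ⟨a • r, hint⟩ with hz
  have hzc : (z : k) = (a : k) * r := by
    change a • r = _
    rw [zsmul_eq_mul]
  refine ⟨z, ?_, ?_⟩
  · have h1 : IntermediateField.adjoin ℚ {r} ≤ IntermediateField.adjoin ℚ {(z : k)} := by
      rw [IntermediateField.adjoin_simple_le_iff]
      have h2 : r = algebraMap ℚ k ((a : ℚ)⁻¹) * (z : k) := by
        rw [hzc, map_inv₀, map_intCast, ← mul_assoc, inv_mul_cancel₀, one_mul]
        exact_mod_cast ha0
      rw [h2]
      exact mul_mem (IntermediateField.algebraMap_mem _ _)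
        (IntermediateField.mem_adjoin_simple_self ℚ _)
    have h3 : IntermediateField.adjoin ℚ {r} = ⊤ := by
      rw [eq_top_iff]
      intro x _
      obtain ⟨p, rfl⟩ := AdjoinRoot.mk_surjective x
      induction p using Polynomial.induction_on' with
      | add p q hp hq =>
        rw [map_add]
        exact add_mem (hp trivial) (hq trivial)
      | monomial m c =>
        rw [← C_mul_X_pow_eq_monomial, map_mul, map_pow, AdjoinRoot.mk_X, AdjoinRoot.mk_C]
        refine mul_mem ?_ (pow_mem (IntermediateField.mem_adjoin_simple_self ℚ _) _)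
        have h4 : AdjoinRoot.of (g.map (algebraMap ℤ ℚ)) c = algebraMap ℚ k c := by
          rw [eq_ratCast, eq_ratCast]
        rw [h4]
        exact IntermediateField.algebraMap_mem _ _
    rw [eq_top_iff, ← h3]
    exact h1
  · refine Pool.Agent.H87.SA.house_le_of (by positivity) fun σ => ?_
    rw [hzc, map_mul, map_intCast, norm_mul, Complex.norm_intCast]
    set w : ℂ := σ r with hw
    have hroot : (g.map (Int.castRingHom ℂ)).IsRoot w := by
      have h1 : σ (aeval r g) = 0 := by rw [gQ_root, map_zero]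
      rw [aeval_def, hom_eval₂] at h1
      rw [IsRoot, eval_map, ← h1]
      congr 1
      exact RingHom.ext_int _ _
    have hne : g.map (Int.castRingHom ℂ) ≠ 0 :=
      (Polynomial.map_ne_zero_iff (Int.castRingHom ℂ).injective_int).2 hg0
    have h1 : ‖w‖ < ((cauchyBound (g.map (Int.castRingHom ℂ)) : NNReal) : ℝ) := by
      exact_mod_cast hroot.norm_lt_cauchyBound hne
    have ha1 : (1 : ℝ) ≤ |(a : ℝ)| := by
      rw [← Int.cast_abs]
      exact_mod_cast Int.one_le_abs ha0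
    have h2 : (cauchyBound (g.map (Int.castRingHom ℂ)) : ℝ) ≤ (H : ℝ) / |(a : ℝ)| + 1 := by
      have hb : cauchyBound (g.map (Int.castRingHom ℂ)) ≤ (H : NNReal) / ‖(a : ℂ)‖₊ + 1 := by
        unfold cauchyBound
        have hl : (g.map (Int.castRingHom ℂ)).leadingCoeff = (a : ℂ) := by
          rw [leadingCoeff_map_of_injective (Int.castRingHom ℂ).injective_int]
          simp [ha]
        rw [hl]
        gcongr
        refine Finset.sup_le fun i _ => ?_
        rw [coeff_map]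
        have h3 : ‖((Int.castRingHom ℂ) (g.coeff i))‖ ≤ (H : ℝ) := by
          rw [eq_intCast, Complex.norm_intCast]
          exact_mod_cast hH i
        exact_mod_cast h3
      have hb' : ((cauchyBound (g.map (Int.castRingHom ℂ)) : NNReal) : ℝ) ≤
          (((H : NNReal) / ‖(a : ℂ)‖₊ + 1 : NNReal) : ℝ) := by exact_mod_cast hb
      refine hb'.trans (le_of_eq ?_)
      push_cast
      rw [Complex.norm_intCast]
    have h4 : ‖w‖ ≤ (H : ℝ) / |(a : ℝ)| + 1 := h1.le.trans h2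
    have haH : |(a : ℝ)| ≤ H := by
      have := hH g.natDegree
      rw [← Int.cast_abs]
      exact_mod_cast this
    calc |(a : ℝ)| * ‖w‖ ≤ |(a : ℝ)| * ((H : ℝ) / |(a : ℝ)| + 1) := by gcongr
      _ = H + |(a : ℝ)| := by field_simp
      _ ≤ 2 * (H : ℝ) := by linarith

/-- real places are real roots -/
theorem gQ_places {g : ℤ[X]} (hg0 : g ≠ 0)
    [hf : Fact (Irreducible (g.map (algebraMap ℤ ℚ)))]
    [NumberField (AdjoinRoot (g.map (algebraMap ℤ ℚ)))] (S : Finset ℤ)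
    (M : (AdjoinRoot (g.map (algebraMap ℤ ℚ)) →+* ℝ) → ℤ)
    (hS : ∀ m ∈ S, ∃ τ, M τ = m) : S.card ≤ Multiset.card (g.aroots ℝ) := by
  classical
  have h1 : ∀ τ : AdjoinRoot (g.map (algebraMap ℤ ℚ)) →+* ℝ,
      τ (AdjoinRoot.root (g.map (algebraMap ℤ ℚ))) ∈ (g.aroots ℝ).toFinset := by
    intro τ
    rw [Multiset.mem_toFinset, mem_aroots]
    refine ⟨hg0, ?_⟩
    have h2 : τ (aeval (AdjoinRoot.root (g.map (algebraMap ℤ ℚ))) g) = 0 := by
      rw [gQ_root, map_zero]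
    rw [aeval_def, hom_eval₂] at h2
    rw [aeval_def, ← h2]
    congr 1
    exact RingHom.ext_int _ _
  have h2 : ∀ τ τ' : AdjoinRoot (g.map (algebraMap ℤ ℚ)) →+* ℝ,
      τ (AdjoinRoot.root (g.map (algebraMap ℤ ℚ))) =
        τ' (AdjoinRoot.root (g.map (algebraMap ℤ ℚ))) → τ = τ' := by
    intro τ τ' h
    refine AdjoinRoot.ringHom_ext ?_ h
    exact RingHom.ext_rat _ _
  choose t ht using hS
  have h3 : S.card ≤ (g.aroots ℝ).toFinset.card := by
    rw [← Finset.card_attach]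
    refine Finset.card_le_card_of_injOn
      (fun m => t m.1 m.2 (AdjoinRoot.root (g.map (algebraMap ℤ ℚ)))) (fun m _ => h1 _) ?_
    intro m hm m' hm' h
    have h4 := h2 _ _ h
    apply Subtype.ext
    rw [← ht m.1 m.2, ← ht m'.1 m'.2, h4]
  exact h3.trans (Multiset.toFinset_card_le _)

/-- numerics -/
theorem D_le_bb {n D H : ℕ} (hn : 4 ≤ n) (hD : D ≤ n) (hH : 2 ≤ H) :
    (D : ℝ) * (2 * (H : ℝ)) ^ D ≤ bb n (2 * H ^ n) := by
  have hH' : (2 : ℝ) ≤ H := by exact_mod_cast hH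
  have h1 : (D : ℝ) ≤ (H : ℝ) ^ n := by
    have h2 : D ≤ 2 ^ n := hD.trans (Nat.lt_two_pow_self).le
    calc (D : ℝ) ≤ ((2 ^ n : ℕ) : ℝ) := by exact_mod_cast h2
      _ = (2 : ℝ) ^ n := by push_cast; rfl
      _ ≤ (H : ℝ) ^ n := pow_le_pow_left₀ (by norm_num) hH' _
  have h3 : (2 * (H : ℝ)) ^ D ≤ ((H : ℝ) ^ n) ^ 2 := by
    calc (2 * (H : ℝ)) ^ D ≤ ((H : ℝ) * H) ^ D := by gcongr
      _ = (H : ℝ) ^ (2 * D) := by rw [← sq, ← pow_mul]
      _ ≤ (H : ℝ) ^ (n * 2) := pow_le_pow_right₀ (by linarith) (by omega)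
      _ = ((H : ℝ) ^ n) ^ 2 := by rw [pow_mul]
  have h4 : (H : ℝ) ^ n ≤ ((2 * H ^ n : ℕ) : ℝ) := by
    push_cast
    have : (0 : ℝ) ≤ (H : ℝ) ^ n := by positivity
    linarith
  have h5 : (1 : ℝ) ≤ ((2 * H ^ n : ℕ) : ℝ) := by
    have : (1 : ℝ) ≤ (H : ℝ) ^ n := one_le_pow₀ (by linarith)
    linarith
  unfold bb
  calc (D : ℝ) * (2 * (H : ℝ)) ^ D ≤ (H : ℝ) ^ n * ((H : ℝ) ^ n) ^ 2 := by gcongr
    _ = ((H : ℝ) ^ n) ^ 3 := by ring
    _ ≤ ((2 * H ^ n : ℕ) : ℝ) ^ 3 := pow_le_pow_left₀ (by positivity) h4 _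
    _ ≤ ((2 * H ^ n : ℕ) : ℝ) ^ (7 * n ^ 2) := pow_le_pow_right₀ h5 (by nlinarith)

end Pool.Agent.H8.KF
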