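import Pool.Agent.H8.KF.JointEx

/-! # The common overring, for any coordinate map on the ring of integers -/

namespace Pool.Agent.H8.KF

open Finset Polynomial Pool.Agent.H72.ES NumberField

theorem exists_joint_of (k : Type) [Field k] [NumberField k] {κ : Type} [Fintype κ]
    [hκ : Nonempty κ] (hcard : Fintype.card κ = Module.finrank ℚ k) {C0 : ℝ} (hC0 : 1 ≤ C0)
    (c0 : 𝓞 k →+ (κ → ℤ)) (hc0 : Function.Injective c0)
    (hcb0 : ∀ a i, |((c0 a i : ℤ) : ℝ)| ≤ C0 * house (algebraMap (𝓞 k) k a)) :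
    ∀ (n Q1 Q2 : ℕ) (f1 f2 : ℤ[X]) (θ1 θ2 : ℝ) (τ : k →+* ℝ), 4 ≤ n →
      2 ^ n ≤ Q1 → 2 ^ n ≤ Q2 → f1.Monic → f1.natDegree = n → (∀ j, |f1.coeff j| ≤ (Q1 : ℤ)) →
      Irreducible f1 → aeval θ1 f1 = 0 → f2.Monic → f2.natDegree = n →
      (∀ j, |f2.coeff j| ≤ (Q2 : ℤ)) → Irreducible f2 → aeval θ2 f2 = 0 →
      NFac k τ n f1 θ1 → NFac k τ n f2 θ2 →
      ∃ (O1 : Ord ℝ n Q1 f1 θ1) (O2 : Ord ℝ n Q2 f2 θ2) (ι : Type) (_ : Fintype ι),
        Nonempty ι ∧ Fintype.card ι * Module.finrank ℚ k = n ^ 2 ∧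
        Nonempty (Joint O1 O2 ι (C0 * bb n Q1 * bb n Q2)) := by
  intro n Q1 Q2 f1 f2 θ1 θ2 τ hn hQ1 hQ2 hm1 hd1 hb1 hf1 hr1 hm2 hd2 hb2 hf2 hr2
  rintro ⟨g1, hg1, hgd1, hgf1, hgr1⟩ ⟨g2, hg2, hgd2, hgf2, hgr2⟩
  have hA := house_subMul k
  have hQ1' : (1 : ℝ) ≤ Q1 := by
    have h2 : 1 ≤ 2 ^ n := Nat.one_le_two_pow
    exact_mod_cast h2.trans hQ1
  have hQ2' : (1 : ℝ) ≤ Q2 := by
    have h2 : 1 ≤ 2 ^ n := Nat.one_le_two_pow
    exact_mod_cast h2.trans hQ2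
  have hpos1 : 0 < g1.natDegree := by
    rcases Nat.eq_zero_or_pos g1.natDegree with h | h
    · rw [h] at hgd1; omega
    · exact h
  have hpos2 : 0 < g2.natDegree := by
    rcases Nat.eq_zero_or_pos g2.natDegree with h | h
    · rw [h] at hgd2; omega
    · exact h
  -- the first extension
  obtain ⟨ν1, hν1, hof1, hroot1, c1, hc1, hcb1⟩ := adj_norm hA g1 hg1 hpos1
    ((Q1 : ℝ) ^ (2 * n + 2)) (one_le_pow₀ hQ1') (coeff_house k hn hQ1 hm1 hd1 hb1 g1 hg1 hgf1)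
  have hdeg1 : degree g1 ≠ 0 := by
    intro h
    have := natDegree_eq_zero_iff_degree_le_zero.2 h.le
    omega
  have hnt : Nontrivial (AdjoinRoot g1) := AdjoinRoot.nontrivial g1 hdeg1
  set g2' := g2.map (AdjoinRoot.of g1) with hg2'
  have hgm2 : g2'.Monic := hg2.map _
  have hgn2 : g2'.natDegree = g2.natDegree := hg2.natDegree_map _
  have hpos2' : 0 < g2'.natDegree := hgn2 ▸ hpos2
  have hsum2 : ∑ i ∈ range g2'.natDegree, ν1 (g2'.coeff i) ≤ (Q2 : ℝ) ^ (2 * n + 2) := by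
    rw [hgn2]
    refine le_trans (sum_le_sum fun i _ => ?_) (coeff_house k hn hQ2 hm2 hd2 hb2 g2 hg2 hgf2)
    rw [hg2', coeff_map]
    exact hof1 _
  obtain ⟨ν, hν, hof, hroot, c2, hc2, hcb2⟩ := adj_norm hν1 g2' hgm2 hpos2'
    ((Q2 : ℝ) ^ (2 * n + 2)) (one_le_pow₀ hQ2') hsum2
  -- the two roots
  set s1 : AdjoinRoot g2' := AdjoinRoot.of g2' (AdjoinRoot.root g1) with hs1
  set s2 : AdjoinRoot g2' := AdjoinRoot.root g2' with hs2
  have hs1r : aeval s1 f1 = 0 := by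
    refine joint_root ((AdjoinRoot.of g2').comp (AdjoinRoot.of g1)) s1 f1 g1 hgf1 ?_
    rw [hs1, ← Polynomial.hom_eval₂, AdjoinRoot.eval₂_root, map_zero]
  have hs2r : aeval s2 f2 = 0 := by
    refine joint_root ((AdjoinRoot.of g2').comp (AdjoinRoot.of g1)) s2 f2 g2 hgf2 ?_
    rw [← eval₂_map]
    exact AdjoinRoot.eval₂_root g2'
  have hνs1 : ν s1 ≤ (Q1 : ℝ) ^ (2 * n + 2) := (hof _).trans hroot1
  -- the real place
  let ψ1 : AdjoinRoot g1 →+* ℝ := AdjoinRoot.lift (τ.comp (algebraMap (𝓞 k) k)) θ1 hgr1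
  have hψ1 : eval₂ ψ1 θ2 g2' = 0 := by
    rw [hg2', eval₂_map, AdjoinRoot.lift_comp_of]
    exact hgr2
  let ψ : AdjoinRoot g2' →+* ℝ := AdjoinRoot.lift ψ1 θ2 hψ1
  have hψs1 : ψ s1 = θ1 := by
    rw [hs1, AdjoinRoot.lift_of, AdjoinRoot.lift_root]
  have hψs2 : ψ s2 = θ2 := AdjoinRoot.lift_root _
  obtain ⟨O1, hO1⟩ := exists_ord_gen hn hQ1 hm1 hd1 hb1 hf1 θ1 hr1
  obtain ⟨O2, hO2⟩ := exists_ord_gen hn hQ2 hm2 hd2 hb2 hf2 θ2 hr2
  obtain ⟨J1, hJ1, hJ1'⟩ := hO1 (AdjoinRoot g2') s1 hs1r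
  obtain ⟨J2, hJ2, hJ2'⟩ := hO2 (AdjoinRoot g2') s2 hs2r
  refine ⟨O1, O2, Fin g2'.natDegree × Fin g1.natDegree × κ, inferInstance, ?_, ?_, ⟨?_⟩⟩
  · exact ⟨(⟨0, hpos2'⟩, ⟨0, hpos1⟩, hκ.some)⟩
  · rw [Fintype.card_prod, Fintype.card_prod, Fintype.card_fin, Fintype.card_fin,
      hcard, hgn2]
    calc g2.natDegree * (g1.natDegree * Module.finrank ℚ k) * Module.finrank ℚ k
        = (g2.natDegree * Module.finrank ℚ k) * (g1.natDegree * Module.finrank ℚ k) := by ring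
      _ = n ^ 2 := by rw [hgd1, hgd2, sq]
  · let cc : AdjoinRoot g2' →+ (Fin g2'.natDegree × Fin g1.natDegree × κ → ℤ) :=
      { toFun := fun s i => c0 (c1 (c2 s i.1) i.2.1) i.2.2
        map_zero' := by
          funext i
          simp
        map_add' := by
          intro x y
          funext i
          simp }
    exact
    { R := AdjoinRoot g2'
      J1 := J1
      J2 := J2
      φ := ψ
      coord := cc
      coord_inj := by
        intro x y hxy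
        apply hc2
        funext i
        apply hc1
        funext j
        apply hc0
        funext l
        exact congrFun hxy (i, j, l)
      φ_J1 := hJ1' ψ hψs1
      φ_J2 := hJ2' ψ hψs2
      size := by
        rintro a b ⟨i, j, l⟩
        have e1 := hcb0 (c1 (c2 (J1 a * J2 b) i) j) l
        have e2 := hcb1 (c2 (J1 a * J2 b) i) j
        have e3 := hcb2 (J1 a * J2 b) i
        have e4 := hν.mul (J1 a) (J2 b)
        have e5 := hJ1 ν hν _ (one_le_pow₀ hQ1') hνs1 a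
        have e6 := hJ2 ν hν _ (one_le_pow₀ hQ2') hroot b
        have p1 := joint_pow hn hQ1
        have p2 := joint_pow hn hQ2
        have n1 := O1.ν_nonneg a
        have n2 := O2.ν_nonneg b
        have e7 : ν (J1 a) ≤ bb n Q1 * O1.ν a :=
          e5.trans (mul_le_mul_of_nonneg_right p1 n1)
        have e8 : ν (J2 b) ≤ bb n Q2 * O2.ν b :=
          e6.trans (mul_le_mul_of_nonneg_right p2 n2)
        have hb1 : 0 ≤ bb n Q1 * O1.ν a := (hν.nonneg _).trans e7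
        have hC : 0 ≤ C0 := by linarith
        calc |((cc (J1 a * J2 b) (i, j, l) : ℤ) : ℝ)|
            ≤ C0 * house (algebraMap (𝓞 k) k (c1 (c2 (J1 a * J2 b) i) j)) := e1
          _ ≤ C0 * ((bb n Q1 * O1.ν a) * (bb n Q2 * O2.ν b)) := by
              refine mul_le_mul_of_nonneg_left ?_ hC
              refine e2.trans (e3.trans (e4.trans ?_))
              exact mul_le_mul e7 e8 (hν.nonneg _) hb1
          _ = C0 * bb n Q1 * bb n Q2 * (O1.ν a * O2.ν b) := by ring }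

end Pool.Agent.H8.KF
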