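import Pool.Agent.H8.KW.Coord2
import Pool.Agent.H8.KF.JointEx

/-! # The common overring of two orders with real generators -/

namespace Pool.Agent.H8.KF

open Finset Polynomial Pool.Agent.H72.ES NumberField

theorem real_int {f : ℤ[X]} {θ : ℝ} (hm : f.Monic) (hr : aeval θ f = 0) : IsIntegral ℤ θ :=
  ⟨f, hm, hr⟩

theorem real_fin {θ1 θ2 : ℝ} (h1 : IsIntegral ℤ θ1) (h2 : IsIntegral ℤ θ2) :
    FiniteDimensional ℚ (IntermediateField.adjoin ℚ ({θ1, θ2} : Set ℝ)) := by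
  refine IntermediateField.finiteDimensional_adjoin fun x hx => ?_
  rcases hx with rfl | hx
  · exact h1.tower_top
  · rw [Set.mem_singleton_iff] at hx
    subst hx
    exact h2.tower_top

theorem real_adjoin {θ1 θ2 : ℝ} (h1 : IsIntegral ℤ θ1) (h2 : IsIntegral ℤ θ2)
    (a1 a2 : IntermediateField.adjoin ℚ ({θ1, θ2} : Set ℝ)) (ha1 : (a1 : ℝ) = θ1)
    (ha2 : (a2 : ℝ) = θ2) : Algebra.adjoin ℚ {a1, a2} = ⊤ := by
  rw [eq_top_iff]
  intro x _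
  have e1 : (IntermediateField.adjoin ℚ ({θ1, θ2} : Set ℝ)).toSubalgebra =
      Algebra.adjoin ℚ ({θ1, θ2} : Set ℝ) := by
    refine IntermediateField.adjoin_toSubalgebra_of_isAlgebraic fun y hy => ?_
    rcases hy with rfl | hy
    · exact (h1.tower_top (A := ℚ)).isAlgebraic
    · rw [Set.mem_singleton_iff] at hy
      subst hy
      exact (h2.tower_top (A := ℚ)).isAlgebraic
  have e2 : (x : ℝ) ∈ Algebra.adjoin ℚ ({θ1, θ2} : Set ℝ) := by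
    rw [← e1]
    exact x.2
  have e3 := AlgHom.map_adjoin (IntermediateField.adjoin ℚ ({θ1, θ2} : Set ℝ)).val {a1, a2}
  have e4 : ((IntermediateField.adjoin ℚ ({θ1, θ2} : Set ℝ)).val '' {a1, a2} : Set ℝ) =
      {θ1, θ2} := by
    rw [Set.image_pair]
    simp [ha1, ha2]
  rw [e4] at e3
  rw [← e3] at e2
  obtain ⟨y, hy, hyx⟩ := e2
  have : y = x := Subtype.ext hyx
  rw [← this]
  exact hy

theorem house_root {L : Type} [Field L] [NumberField L] {Q : ℕ} {f : ℤ[X]} (hm : f.Monic)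
    (hc : ∀ j, |f.coeff j| ≤ (Q : ℤ)) (s : 𝓞 L) (hs : aeval s f = 0) :
    house (s : L) ≤ (Q : ℝ) + 1 := by
  refine Pool.Agent.H87.SA.house_le_of (by positivity) fun σ => ?_
  refine root_norm_le hm hc ?_
  have h1 := congrArg (σ.comp (algebraMap (𝓞 L) L)) hs
  rw [map_zero, aeval_def, hom_eval₂] at h1
  rw [IsRoot, eval_map]
  rw [← h1]
  congr 1
  exact RingHom.ext_int _ _

theorem joint_num {n Q : ℕ} (hn : 4 ≤ n) (hQ : 2 ^ n ≤ Q) :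
    (n : ℝ) * ((Q : ℝ) ^ 2) ^ n * ((Q : ℝ) ^ 2) ^ n ≤ bb n Q := by
  have hnQ : n ≤ Q := (Nat.lt_two_pow_self).le.trans hQ
  have hnQ' : (n : ℝ) ≤ Q := by exact_mod_cast hnQ
  have h1 : (1 : ℝ) ≤ Q := by
    have h2 : 1 ≤ 2 ^ n := Nat.one_le_two_pow
    exact_mod_cast h2.trans hQ
  unfold bb
  calc (n : ℝ) * ((Q : ℝ) ^ 2) ^ n * ((Q : ℝ) ^ 2) ^ n
      ≤ (Q : ℝ) * ((Q : ℝ) ^ 2) ^ n * ((Q : ℝ) ^ 2) ^ n := by gcongr
    _ = (Q : ℝ) ^ (1 + 4 * n) := by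
        rw [pow_add, pow_one, show 4 * n = 2 * n + 2 * n by ring, pow_add, ← pow_mul]
        ring
    _ ≤ (Q : ℝ) ^ (7 * n ^ 2) := pow_le_pow_right₀ h1 (by nlinarith)

theorem exists_joint_real {n Q1 Q2 : ℕ} {f1 f2 : ℤ[X]} {θ1 θ2 : ℝ} (hn : 4 ≤ n)
    (hQ1 : 2 ^ n ≤ Q1) (hQ2 : 2 ^ n ≤ Q2) (hm1 : f1.Monic) (hd1 : f1.natDegree = n)
    (hc1 : ∀ j, |f1.coeff j| ≤ (Q1 : ℤ)) (hf1 : Irreducible f1) (hr1 : aeval θ1 f1 = 0)
    (hm2 : f2.Monic) (hd2 : f2.natDegree = n) (hc2 : ∀ j, |f2.coeff j| ≤ (Q2 : ℤ))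
    (hf2 : Irreducible f2) (hr2 : aeval θ2 f2 = 0)
    (hle : Module.finrank ℚ (IntermediateField.adjoin ℚ ({θ1, θ2} : Set ℝ)) ≤ n ^ 2) :
    ∃ (O1 : Ord ℝ n Q1 f1 θ1) (O2 : Ord ℝ n Q2 f2 θ2) (ι : Type) (_ : Fintype ι),
      Nonempty ι ∧ Fintype.card ι =
        Module.finrank ℚ (IntermediateField.adjoin ℚ ({θ1, θ2} : Set ℝ)) ∧
      Nonempty (Joint O1 O2 ι (bb n Q1 * bb n Q2)) := by
  have hi1 := real_int hm1 hr1
  have hi2 := real_int hm2 hr2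
  have hfd := real_fin hi1 hi2
  have hNF : NumberField (IntermediateField.adjoin ℚ ({θ1, θ2} : Set ℝ)) :=
    { to_charZero := inferInstance
      to_finiteDimensional := hfd }
  obtain ⟨L, hL⟩ : ∃ L : IntermediateField ℚ ℝ, L = IntermediateField.adjoin ℚ ({θ1, θ2} : Set ℝ) :=
    ⟨_, rfl⟩
  have hadj0 := @real_adjoin θ1 θ2 hi1 hi2
  rw [← hL] at hfd hNF hadj0 hle ⊢
  have hθ1 : θ1 ∈ L := by
    rw [hL]; exact IntermediateField.subset_adjoin ℚ _ (by simp)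
  have hθ2 : θ2 ∈ L := by
    rw [hL]; exact IntermediateField.subset_adjoin ℚ _ (by simp)
  have key : ∀ (f : ℤ[X]) (θ : ℝ) (hθ : θ ∈ L), aeval θ f = 0 → aeval (⟨θ, hθ⟩ : L) f = 0 := by
    intro f θ hθ h
    apply (algebraMap L ℝ).injective
    rw [← aeval_algebraMap_apply, map_zero]
    exact h
  have hk1 := key f1 θ1 hθ1 hr1
  have hk2 := key f2 θ2 hθ2 hr2
  set s1 : 𝓞 L := ⟨⟨θ1, hθ1⟩, ⟨f1, hm1, hk1⟩⟩ with hs1
  set s2 : 𝓞 L := ⟨⟨θ2, hθ2⟩, ⟨f2, hm2, hk2⟩⟩ with hs2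
  have hs1c : ((s1 : L) : ℝ) = θ1 := rfl
  have hs2c : ((s2 : L) : ℝ) = θ2 := rfl
  have hs1r : aeval s1 f1 = 0 := by
    apply RingOfIntegers.coe_injective
    rw [← aeval_algebraMap_apply, map_zero]
    exact hk1
  have hs2r : aeval s2 f2 = 0 := by
    apply RingOfIntegers.coe_injective
    rw [← aeval_algebraMap_apply, map_zero]
    exact hk2
  have hQ1' : (2 : ℝ) ≤ Q1 := by
    have h2 : 2 ≤ 2 ^ n := by
      calc 2 = 2 ^ 1 := by norm_num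
        _ ≤ 2 ^ n := Nat.pow_le_pow_right (by norm_num) (by omega)
    exact_mod_cast h2.trans hQ1
  have hQ2' : (2 : ℝ) ≤ Q2 := by
    have h2 : 2 ≤ 2 ^ n := by
      calc 2 = 2 ^ 1 := by norm_num
        _ ≤ 2 ^ n := Nat.pow_le_pow_right (by norm_num) (by omega)
    exact_mod_cast h2.trans hQ2
  have hY1 : (1 : ℝ) ≤ (Q1 : ℝ) ^ 2 := one_le_pow₀ (by linarith)
  have hY2 : (1 : ℝ) ≤ (Q2 : ℝ) ^ 2 := one_le_pow₀ (by linarith)
  have hh1 : house (s1 : L) ≤ (Q1 : ℝ) ^ 2 := (house_root hm1 hc1 s1 hs1r).trans (by nlinarith)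
  have hh2 : house (s2 : L) ≤ (Q2 : ℝ) ^ 2 := (house_root hm2 hc2 s2 hs2r).trans (by nlinarith)
  have hadj := hadj0 (s1 : L) (s2 : L) hs1c hs2c
  obtain ⟨κ, hκ, c, hcard, hcinj, hcb⟩ := exists_coord2 s1 s2 f1 f2 hm1 hm2 hd1 hd2 hs1r hs2r hadj
    hY1 hY2 hh1 hh2
  obtain ⟨O1, hO1⟩ := exists_ord_gen hn hQ1 hm1 hd1 hc1 hf1 θ1 hr1
  obtain ⟨O2, hO2⟩ := exists_ord_gen hn hQ2 hm2 hd2 hc2 hf2 θ2 hr2
  obtain ⟨J1, hJ1, hJ1'⟩ := hO1 (𝓞 L) s1 hs1r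
  obtain ⟨J2, hJ2, hJ2'⟩ := hO2 (𝓞 L) s2 hs2r
  have hA := house_subMul L
  let ψ : 𝓞 L →+* ℝ := (algebraMap L ℝ).comp (algebraMap (𝓞 L) L)
  refine ⟨O1, O2, κ, hκ, ?_, hcard, ⟨?_⟩⟩
  · have h1 : 0 < Fintype.card κ := by
      rw [hcard]
      exact Module.finrank_pos
    exact Fintype.card_pos_iff.1 h1
  · exact
    { R := 𝓞 L
      J1 := J1
      J2 := J2
      φ := ψ
      coord := c
      coord_inj := hcinj
      φ_J1 := hJ1' ψ rfl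
      φ_J2 := hJ2' ψ rfl
      size := by
        intro a b l
        have e1 := hcb (J1 a * J2 b) l
        have e4 := hA.mul (J1 a) (J2 b)
        have e5 := hJ1 _ hA _ hY1 hh1 a
        have e6 := hJ2 _ hA _ hY2 hh2 b
        have n1 := O1.ν_nonneg a
        have n2 := O2.ν_nonneg b
        have p1 := joint_num hn hQ1
        have p2 := joint_num hn hQ2
        have hr : ((Module.finrank ℚ L : ℕ) : ℝ) ≤ (n : ℝ) * n := by
          have : ((Module.finrank ℚ L : ℕ) : ℝ) ≤ ((n ^ 2 : ℕ) : ℝ) := by exact_mod_cast hle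
          push_cast at this
          linarith [this, sq (n : ℝ)]
        calc |((c (J1 a * J2 b) l : ℤ) : ℝ)|
            ≤ (Module.finrank ℚ L * (((Q1 : ℝ) ^ 2) ^ n * ((Q2 : ℝ) ^ 2) ^ n)) *
                house ((J1 a * J2 b : 𝓞 L) : L) := e1
          _ ≤ ((n : ℝ) * n * (((Q1 : ℝ) ^ 2) ^ n * ((Q2 : ℝ) ^ 2) ^ n)) *
                ((((Q1 : ℝ) ^ 2) ^ n * O1.ν a) * (((Q2 : ℝ) ^ 2) ^ n * O2.ν b)) := by
              refine mul_le_mul ?_ ?_ (house_nonneg _) (by positivity)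
              · exact mul_le_mul_of_nonneg_right hr (by positivity)
              · exact e4.trans (mul_le_mul e5 e6 (hA.nonneg _) (by positivity))
          _ = ((n : ℝ) * ((Q1 : ℝ) ^ 2) ^ n * ((Q1 : ℝ) ^ 2) ^ n) *
                ((n : ℝ) * ((Q2 : ℝ) ^ 2) ^ n * ((Q2 : ℝ) ^ 2) ^ n) * (O1.ν a * O2.ν b) := by ring
          _ ≤ bb n Q1 * bb n Q2 * (O1.ν a * O2.ν b) := by
              refine mul_le_mul_of_nonneg_right ?_ (by positivity)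
              exact mul_le_mul p1 p2 (by positivity) (by linarith [one_le_bb hn hQ1]) }

end Pool.Agent.H8.KF
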