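import Pool.Agent.H8.KW.JointOf
import Pool.Agent.H8.KF.Two
import Pool.Agent.H8.KF.Uni
import Pool.Agent.H87.SA.Coord

/-! # Exceptional points over a fixed number field repel each other, explicitly -/

namespace Pool.Agent.H8.KF

open Finset Polynomial Pool.Agent.H72.ES NumberField

/-- Two exceptional points at the same real place, on any two curves whose root fields contain `k`:
the larger one is at most a fixed power of the smaller one. -/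
theorem excK_repel (k : Type) [Field k] [NumberField k] (hk : 3 ≤ Module.finrank ℚ k)
    (z : 𝓞 k) (hz : IntermediateField.adjoin ℚ {(z : k)} = ⊤) {Y : ℝ} (hY : 1 ≤ Y)
    (hzY : house (z : k) ≤ Y) (n : ℕ) (τ : k →+* ℝ)
    {Q1 : ℕ} {f1 : ℤ[X]} {θ1 : ℝ} {F1 : ℕ → ℕ → ℤ} {x1 y1 : ℤ}
    {Q2 : ℕ} {f2 : ℤ[X]} {θ2 : ℝ} {F2 : ℕ → ℕ → ℤ} {x2 y2 : ℤ}
    (h1 : ExcK k τ n Q1 f1 θ1 F1 x1 y1) (h2 : ExcK k τ n Q2 f2 θ2 F2 x2 y2)
    (hC2 : Module.finrank ℚ k * Y ^ Module.finrank ℚ k ≤ bb n Q2) :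
    |(x2 : ℝ)| ≤ |(x1 : ℝ)| ^ (2000 * n ^ 4) := by
  classical
  obtain ⟨c, hc, hcb⟩ := Pool.Agent.H87.SA.exists_coordE z hz hY hzY
  obtain ⟨hN1, hf1, hr1, hg1, hz1, hn1, hb1⟩ := h1
  obtain ⟨hN2, hf2, hr2, hg2, hz2, hn2, hb2⟩ := h2
  have hD : (1 : ℝ) ≤ Module.finrank ℚ k := by exact_mod_cast (by omega : 1 ≤ Module.finrank ℚ k)
  set C0 : ℝ := Module.finrank ℚ k * Y ^ Module.finrank ℚ k with hC0d
  have hC0 : 1 ≤ C0 := one_le_mul_of_one_le_of_one_le hD (one_le_pow₀ hY)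
  have hne0 : Nonempty (Fin (Module.finrank ℚ k)) := ⟨⟨0, by omega⟩⟩
  by_contra hcon
  push Not at hcon
  have hc1 := hcon.le
  have hn := hN1.hn
  obtain ⟨hm1, hd1, hco1⟩ := hN1.lead_props
  obtain ⟨hm2, hd2, hco2⟩ := hN2.lead_props
  obtain ⟨O1, O2, ι, hι, hne, hcard, ⟨J⟩⟩ := exists_joint_of k (Fintype.card_fin _) hC0 c hc hcb
    n Q1 Q2 f1 f2 θ1 θ2 τ hn hN1.hQ hN2.hQ hm1 hd1 hco1 hf1 hr1 hm2 hd2 hco2 hf2 hr2 hg1 hg2
  have hB1 := one_le_bb hn hN1.hQ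
  have hB2 := one_le_bb hn hN2.hQ
  set b1 := bb n Q1 with hb1d
  set b2 := bb n Q2 with hb2d
  have hG : 1 ≤ C0 * b1 * b2 :=
    one_le_mul_of_one_le_of_one_le (one_le_mul_of_one_le_of_one_le hC0 hB1) hB2
  have h3 : 3 * Fintype.card ι ≤ n ^ 2 := by
    rw [← hcard, mul_comm]
    exact Nat.mul_le_mul_left _ hk
  have hX1 : 1 ≤ |(x1 : ℝ)| := (one_le_pow₀ hB1).trans hb1
  have hX12 : |(x1 : ℝ)| ≤ |(x2 : ℝ)| := by
    refine le_trans ?_ hc1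
    have : 2000 * n ^ 4 ≠ 0 := by
      have : 0 < n ^ 4 := by positivity
      omega
    exact le_self_pow₀ hX1 this
  have hkey : (C0 * b1 * b2 * b2) ^ (40000 * n ^ 5) ≤ |(x2 : ℝ)| := by
    have e1 : ((C0 * b1 * b2 * b2) ^ (40000 * n ^ 5)) ^ 3 ≤ |(x2 : ℝ)| ^ 3 := by
      calc ((C0 * b1 * b2 * b2) ^ (40000 * n ^ 5)) ^ 3
          ≤ ((b2 * b1 * b2 * b2) ^ (40000 * n ^ 5)) ^ 3 := by gcongr
        _ = b1 ^ (120000 * n ^ 5) * b2 ^ (120000 * n ^ 5) * b2 ^ (240000 * n ^ 5) := by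
            have e0 : b2 * b1 * b2 * b2 = b1 * b2 ^ 3 := by ring
            rw [e0, ← pow_mul, mul_pow]
            have e3 : 40000 * n ^ 5 * 3 = 120000 * n ^ 5 := by ring
            rw [e3, ← pow_mul]
            have e4 : 3 * (120000 * n ^ 5) = 120000 * n ^ 5 + 240000 * n ^ 5 := by ring
            rw [e4, pow_add]
            ring
        _ ≤ |(x2 : ℝ)| * |(x2 : ℝ)| * |(x2 : ℝ)| := by
            have e4 : b1 ^ (120000 * n ^ 5) ≤ |(x2 : ℝ)| :=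
              ((pow_le_pow_right₀ hB1 (by nlinarith [Nat.zero_le (n ^ 5)])).trans hb1).trans hX12
            have e5 : b2 ^ (120000 * n ^ 5) ≤ |(x2 : ℝ)| :=
              (pow_le_pow_right₀ hB2 (by nlinarith [Nat.zero_le (n ^ 5)])).trans hb2
            gcongr
        _ = |(x2 : ℝ)| ^ 3 := by ring
    exact le_of_pow_le_pow_left₀ (by norm_num) (abs_nonneg _) e1
  have hx1' : b1 ^ (20000 * n ^ 5) ≤ |(x1 : ℝ)| :=
    (pow_le_pow_right₀ hB1 (by nlinarith [Nat.zero_le (n ^ 5)])).trans hb1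
  exact two_joint hf1 hf2 O1 O2 hG J h3 hN1 hN2 x1 y1 x2 y2 hz1 hz2 hn1 hn2 hx1' hkey hc1

end Pool.Agent.H8.KF
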