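import Pool.Agent.H8.KW.JointR
import Pool.Agent.H8.KF.Two
import Pool.Agent.H8.KF.UniB

/-! # Exceptional points repel each other, explicitly and for pairs of fields -/

namespace Pool.Agent.H8.KF

open Finset Polynomial Pool.Agent.H72.ES NumberField

/-- an exceptional (very large) integer point near the real point at infinity `θ` -/
def ExcR (n Q : ℕ) (f : ℤ[X]) (θ : ℝ) (F : ℕ → ℕ → ℤ) (x y : ℤ) : Prop :=
  Norml n Q f F ∧ Irreducible f ∧ aeval θ f = 0 ∧ ev n F x y = 0 ∧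
    |(y : ℝ) / x - θ| ≤ 1 / bb n Q ∧ bb n Q ^ (240000 * n ^ 5) ≤ |(x : ℝ)|

/-- **Repulsion.** Two exceptional points near `θ1`, `θ2` with `[ℚ(θ1, θ2) : ℚ] ≤ n² / 3`. -/
theorem excR_repel {n : ℕ}
    {Q1 : ℕ} {f1 : ℤ[X]} {θ1 : ℝ} {F1 : ℕ → ℕ → ℤ} {x1 y1 : ℤ}
    {Q2 : ℕ} {f2 : ℤ[X]} {θ2 : ℝ} {F2 : ℕ → ℕ → ℤ} {x2 y2 : ℤ}
    (h1 : ExcR n Q1 f1 θ1 F1 x1 y1) (h2 : ExcR n Q2 f2 θ2 F2 x2 y2)
    (hr : 3 * Module.finrank ℚ (IntermediateField.adjoin ℚ ({θ1, θ2} : Set ℝ)) ≤ n ^ 2) :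
    |(x2 : ℝ)| ≤ |(x1 : ℝ)| ^ (2000 * n ^ 4) := by
  obtain ⟨hN1, hf1, hr1, hz1, hn1, hb1⟩ := h1
  obtain ⟨hN2, hf2, hr2, hz2, hn2, hb2⟩ := h2
  by_contra hcon
  push Not at hcon
  have hc1 := hcon.le
  have hn := hN1.hn
  obtain ⟨hm1, hd1, hco1⟩ := hN1.lead_props
  obtain ⟨hm2, hd2, hco2⟩ := hN2.lead_props
  obtain ⟨O1, O2, ι, hι, hne, hcard, ⟨J⟩⟩ := exists_joint_real hn hN1.hQ hN2.hQ hm1 hd1 hco1 hf1
    hr1 hm2 hd2 hco2 hf2 hr2 (by omega)
  have hB1 := one_le_bb hn hN1.hQ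
  have hB2 := one_le_bb hn hN2.hQ
  set b1 := bb n Q1 with hb1d
  set b2 := bb n Q2 with hb2d
  have hG : 1 ≤ b1 * b2 := one_le_mul_of_one_le_of_one_le hB1 hB2
  have h3 : 3 * Fintype.card ι ≤ n ^ 2 := by
    rw [hcard]
    exact hr
  have hX1 : 1 ≤ |(x1 : ℝ)| := (one_le_pow₀ hB1).trans hb1
  have hX12 : |(x1 : ℝ)| ≤ |(x2 : ℝ)| := by
    refine le_trans ?_ hc1
    have : 2000 * n ^ 4 ≠ 0 := by
      have : 0 < n ^ 4 := by positivity
      omega
    exact le_self_pow₀ hX1 this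
  have hkey : (b1 * b2 * b2) ^ (40000 * n ^ 5) ≤ |(x2 : ℝ)| := by
    have e1 : ((b1 * b2 * b2) ^ (40000 * n ^ 5)) ^ 2 ≤ |(x2 : ℝ)| ^ 2 := by
      calc ((b1 * b2 * b2) ^ (40000 * n ^ 5)) ^ 2
          = b1 ^ (80000 * n ^ 5) * b2 ^ (160000 * n ^ 5) := by
            have e0 : b1 * b2 * b2 = b1 * b2 ^ 2 := by ring
            rw [e0, ← pow_mul, mul_pow]
            have e3 : 40000 * n ^ 5 * 2 = 80000 * n ^ 5 := by ring
            rw [e3, ← pow_mul]
            have e4 : 2 * (80000 * n ^ 5) = 160000 * n ^ 5 := by ring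
            rw [e4]
        _ ≤ |(x2 : ℝ)| * |(x2 : ℝ)| := by
            have e4 : b1 ^ (80000 * n ^ 5) ≤ |(x2 : ℝ)| :=
              ((pow_le_pow_right₀ hB1 (by nlinarith [Nat.zero_le (n ^ 5)])).trans hb1).trans hX12
            have e5 : b2 ^ (160000 * n ^ 5) ≤ |(x2 : ℝ)| :=
              (pow_le_pow_right₀ hB2 (by nlinarith [Nat.zero_le (n ^ 5)])).trans hb2
            gcongr
        _ = |(x2 : ℝ)| ^ 2 := by ring
    exact le_of_sq_le_sq e1 (abs_nonneg _)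
  have hx1' : b1 ^ (20000 * n ^ 5) ≤ |(x1 : ℝ)| :=
    (pow_le_pow_right₀ hB1 (by nlinarith [Nat.zero_le (n ^ 5)])).trans hb1
  exact two_joint hf1 hf2 O1 O2 hG J h3 hN1 hN2 x1 y1 x2 y2 hz1 hz2 hn1 hn2 hx1' hkey hc1

/-- the degree of a real root -/
theorem real_deg {q : ℚ[X]} {η : ℝ} (hq : q ≠ 0) (hr : aeval η q = 0) :
    Module.finrank ℚ (IntermediateField.adjoin ℚ ({η} : Set ℝ)) ≤ q.natDegree := by
  have hi : IsIntegral ℚ η := (isAlgebraic_iff_isIntegral).1 ⟨q, hq, hr⟩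
  rw [IntermediateField.adjoin.finrank hi]
  exact natDegree_le_of_dvd (minpoly.dvd ℚ η hr) hq

/-- the degree of the compositum when both fields contain the image of `k` -/
theorem pair_deg (k : Type) [Field k] [NumberField k] (τ : k →+* ℝ) {n : ℕ} {θ1 θ2 : ℝ}
    (hd1 : Module.finrank ℚ (IntermediateField.adjoin ℚ ({θ1} : Set ℝ)) ≤ n)
    (hd2 : Module.finrank ℚ (IntermediateField.adjoin ℚ ({θ2} : Set ℝ)) ≤ n)
    (h1 : ∀ z, τ z ∈ IntermediateField.adjoin ℚ ({θ1} : Set ℝ))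
    (h2 : ∀ z, τ z ∈ IntermediateField.adjoin ℚ ({θ2} : Set ℝ)) :
    Module.finrank ℚ k * Module.finrank ℚ (IntermediateField.adjoin ℚ ({θ1, θ2} : Set ℝ)) ≤
      n ^ 2 := by
  obtain ⟨F0, hF0⟩ : ∃ F0 : IntermediateField ℚ ℝ, F0 = τ.toRatAlgHom.fieldRange := ⟨_, rfl⟩
  have hfin : Module.finrank ℚ F0 = Module.finrank ℚ k := by
    rw [hF0]
    exact (AlgEquiv.ofInjectiveField τ.toRatAlgHom).toLinearEquiv.finrank_eq.symm
  obtain ⟨E1, hE1⟩ : ∃ E1 : IntermediateField ℚ ℝ, E1 = IntermediateField.adjoin ℚ ({θ1} : Set ℝ) :=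
    ⟨_, rfl⟩
  obtain ⟨E2, hE2⟩ : ∃ E2 : IntermediateField ℚ ℝ, E2 = IntermediateField.adjoin ℚ ({θ2} : Set ℝ) :=
    ⟨_, rfl⟩
  have hsup : IntermediateField.adjoin ℚ ({θ1, θ2} : Set ℝ) = E1 ⊔ E2 := by
    rw [hE1, hE2, ← IntermediateField.adjoin_union, Set.singleton_union]
  rw [hsup]
  rw [← hE1] at h1 hd1
  rw [← hE2] at h2 hd2
  have hle1 : F0 ≤ E1 := by
    rw [hF0]
    rintro x ⟨z, rfl⟩
    exact h1 z
  have hle2 : F0 ≤ E2 := by
    rw [hF0]
    rintro x ⟨z, rfl⟩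
    exact h2 z
  have e1 : Module.finrank ℚ F0 * Module.finrank F0 (IntermediateField.extendScalars hle1) =
      Module.finrank ℚ E1 := Module.finrank_mul_finrank ℚ F0 (IntermediateField.extendScalars hle1)
  have e2 : Module.finrank ℚ F0 * Module.finrank F0 (IntermediateField.extendScalars hle2) =
      Module.finrank ℚ E2 := Module.finrank_mul_finrank ℚ F0 (IntermediateField.extendScalars hle2)
  have e3 : Module.finrank ℚ F0 * Module.finrank F0
      (IntermediateField.extendScalars (le_sup_of_le_left hle1 : F0 ≤ E1 ⊔ E2)) =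
      Module.finrank ℚ ↥(E1 ⊔ E2) := Module.finrank_mul_finrank ℚ F0
        (IntermediateField.extendScalars (le_sup_of_le_left hle1 : F0 ≤ E1 ⊔ E2))
  have e4 := IntermediateField.finrank_sup_le (IntermediateField.extendScalars hle1)
    (IntermediateField.extendScalars hle2)
  rw [IntermediateField.extendScalars_sup] at e4
  rw [← hfin, ← e3]
  calc Module.finrank ℚ F0 * (Module.finrank ℚ F0 * Module.finrank F0
        (IntermediateField.extendScalars (le_sup_of_le_left hle1 : F0 ≤ E1 ⊔ E2)))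
      ≤ Module.finrank ℚ F0 * (Module.finrank ℚ F0 *
        (Module.finrank F0 (IntermediateField.extendScalars hle1) *
          Module.finrank F0 (IntermediateField.extendScalars hle2))) := by gcongr
    _ = (Module.finrank ℚ F0 * Module.finrank F0 (IntermediateField.extendScalars hle1)) *
        (Module.finrank ℚ F0 * Module.finrank F0 (IntermediateField.extendScalars hle2)) := by ring
    _ = Module.finrank ℚ E1 * Module.finrank ℚ E2 := by rw [e1, e2]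
    _ ≤ n * n := Nat.mul_le_mul hd1 hd2
    _ = n ^ 2 := (sq n).symm

/-- the real place of `k` given by a real root of the leading form -/
theorem real_place (k : Type) [Field k] {q : ℚ[X]} (hirr : Irreducible q)
    (j : k →+* AdjoinRoot q) (η : ℝ) (hη : aeval η q = 0) :
    ∃ τ : k →+* ℝ, ∀ z, τ z ∈ IntermediateField.adjoin ℚ ({η} : Set ℝ) := by
  have hfact : Fact (Irreducible q) := ⟨hirr⟩
  set ψ : AdjoinRoot q →+* ℝ := AdjoinRoot.lift (algebraMap ℚ ℝ) η hη with hψ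
  refine ⟨ψ.comp j, fun z => ?_⟩
  rw [RingHom.comp_apply]
  obtain ⟨p, hp⟩ := AdjoinRoot.mk_surjective (j z)
  rw [← hp, hψ, AdjoinRoot.lift_mk]
  have h3 : Algebra.adjoin ℚ {η} ≤
      (IntermediateField.adjoin ℚ ({η} : Set ℝ)).toSubalgebra := by
    rw [Algebra.adjoin_le_iff]
    intro w hw
    rw [Set.mem_singleton_iff] at hw
    subst hw
    exact IntermediateField.mem_adjoin_simple_self ℚ _
  exact h3 (aeval_mem_adjoin_singleton ℚ η)

end Pool.Agent.H8.KF
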