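import Pool.Agent.H8.KW.Exc
import Pool.Agent.H8.KW.Fld
import Pool.Agent.H8.KF.FinK

/-! # Exceptional points lie in at most one window for each real place -/

namespace Pool.Agent.H8.KF

open Finset Polynomial Pool.Agent.H72.ES Pool.Agent.H8.NoPt NumberField

/-- the exceptional sizes at a real place -/
def ExcSize (k : Type) [Field k] [NumberField k] (g : ℤ[X]) (n : ℕ) (τ : k →+* ℝ) (m : ℕ) : Prop :=
  ∃ (H : ℕ) (f : ℤ[X]) (θ : ℝ) (F : ℕ → ℕ → ℤ) (x y : ℤ), 2 ≤ H ∧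
    (∀ i, |g.coeff i| ≤ (H : ℤ)) ∧ ExcK k τ n (2 * H ^ n) f θ F x y ∧
    |(x : ℝ)| ≤ (m : ℝ) ∧ (m : ℝ) ≤ |(x : ℝ)| ^ 2

theorem excSize_repel {g : ℤ[X]} (hd : 3 ≤ g.natDegree)
    [hf : Fact (Irreducible (g.map (algebraMap ℤ ℚ)))]
    [NumberField (AdjoinRoot (g.map (algebraMap ℤ ℚ)))] {n : ℕ} (hn : 4 ≤ n)
    (τ : AdjoinRoot (g.map (algebraMap ℤ ℚ)) →+* ℝ) {m1 m2 : ℕ}
    (h1 : ExcSize (AdjoinRoot (g.map (algebraMap ℤ ℚ))) g n τ m1)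
    (h2 : ExcSize (AdjoinRoot (g.map (algebraMap ℤ ℚ))) g n τ m2) :
    m2 ≤ m1 ^ (4000 * n ^ 4) := by
  obtain ⟨H1, f1, θ1, F1, x1, y1, hH1, hg1, he1, hl1, hu1⟩ := h1
  obtain ⟨H2, f2, θ2, F2, x2, y2, hH2, hg2, he2, hl2, hu2⟩ := h2
  have hg0 : g ≠ 0 := by
    rintro rfl
    simp at hd
  obtain ⟨z, hz, hzh⟩ := gQ_gen hg0 hg2
  have hfin := gQ_fin (g := g)
  have hD : g.natDegree ≤ n := by
    obtain ⟨-, -, -, ⟨g', -, hgd, -⟩, -⟩ := he2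
    rw [hfin] at hgd
    have h3 : g.natDegree ∣ n := ⟨g'.natDegree, by rw [← hgd, mul_comm]⟩
    exact Nat.le_of_dvd (by omega) h3
  have hY : (1 : ℝ) ≤ 2 * (H2 : ℝ) := by
    have : (2 : ℝ) ≤ H2 := by exact_mod_cast hH2
    linarith
  have hrep := excK_repel _ (by rw [hfin]; exact hd) z hz hY hzh n τ he1 he2 (by
    rw [hfin]
    exact D_le_bb hn hD hH2)
  have h4 : (m2 : ℝ) ≤ (m1 : ℝ) ^ (4000 * n ^ 4) := by
    calc (m2 : ℝ) ≤ |(x2 : ℝ)| ^ 2 := hu2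
      _ ≤ (|(x1 : ℝ)| ^ (2000 * n ^ 4)) ^ 2 := pow_le_pow_left₀ (abs_nonneg _) hrep _
      _ = |(x1 : ℝ)| ^ (4000 * n ^ 4) := by rw [← pow_mul]; congr 1; ring
      _ ≤ (m1 : ℝ) ^ (4000 * n ^ 4) := pow_le_pow_left₀ (abs_nonneg _) hl1 _
  exact_mod_cast h4

/-- **At most one window of exceptions for each real root of `g`.** -/
theorem windows {n : ℕ} (hn : 4 ≤ n) (g : ℤ[X]) (hg : Irreducible g) (hd : 3 ≤ g.natDegree) :
    ∃ S : Finset ℤ, S.card ≤ Multiset.card (g.aroots ℝ) ∧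
      ∀ (F : MvPolynomial (Fin 2) ℤ) (H : ℕ), F.totalDegree ≤ n →
        Irreducible (MvPolynomial.map (Int.castRingHom ℚ)
          (MvPolynomial.homogeneousComponent n F)) →
        (∃ γ : AdjoinRoot (MvPolynomial.aeval ![(1 : ℚ[X]), X]
          (MvPolynomial.homogeneousComponent n F)), aeval γ g = 0) →
        2 ≤ H → (∀ m, |F.coeff m| ≤ (H : ℤ)) → (∀ i, |g.coeff i| ≤ (H : ℤ)) →
        ∀ x y : ℤ, MvPolynomial.eval ![x, y] F = 0 →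
          max |x| |y| ≤ (H : ℤ) ^ (10 ^ 7 * n ^ 8) ∨
            ∃ M ∈ S, M ≤ max |x| |y| ∧ max |x| |y| ≤ M ^ (4000 * n ^ 4) := by
  classical
  have hg0 : g ≠ 0 := hg.ne_zero
  have hf : Fact (Irreducible (g.map (algebraMap ℤ ℚ))) := ⟨gQ_irr hg hd⟩
  have hNF : NumberField (AdjoinRoot (g.map (algebraMap ℤ ℚ))) := gQ_num
  set k := AdjoinRoot (g.map (algebraMap ℤ ℚ)) with hk
  let M : (k →+* ℝ) → ℤ := fun τ =>
    if h : ∃ m : ℕ, ExcSize k g n τ m then ((Nat.find h : ℕ) : ℤ) else 0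
  refine ⟨univ.image M, ?_, ?_⟩
  · refine gQ_places hg0 _ M fun m hm => ?_
    obtain ⟨τ, -, hτ⟩ := mem_image.1 hm
    exact ⟨τ, hτ⟩
  intro F H hdeg hirr hγ hH hF hgH x y hz
  rw [aeval_lead] at hγ
  obtain ⟨ha, hirr'⟩ := leadQ_of_irreducible (by omega) hirr
  obtain ⟨γ, hγ⟩ := hγ
  have hjk : Nonempty (k →+* AdjoinRoot (leadQ n (arrM F))) := by
    refine ⟨AdjoinRoot.lift (algebraMap ℚ _) γ ?_⟩
    rw [eval₂_map, ← hγ, aeval_def]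
    congr 1
  have hz' : ev n (arrM F) x y = 0 := by rw [← eval_arrM hdeg]; exact hz
  by_cases hsm : max |x| |y| ≤ (H : ℤ) ^ (10 ^ 7 * n ^ 8)
  · exact Or.inl hsm
  right
  obtain ⟨τ, f, θ, F', y', hexc, hl, hu⟩ := exc_of_big k hn (arrM F) ha hirr' hjk H hH
    (fun i j _ => hF _) x y hz' hsm
  obtain ⟨m, hm⟩ := Int.eq_ofNat_of_zero_le ((abs_nonneg x).trans (le_max_left |x| |y|))
  rw [hm] at hl hu ⊢
  have hE : ExcSize k g n τ m := ⟨H, f, θ, F', x, y', hH, hgH, hexc, by simpa using hl, by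
    simpa using hu⟩
  have hex : ∃ m : ℕ, ExcSize k g n τ m := ⟨m, hE⟩
  have hMτ : M τ = ((Nat.find hex : ℕ) : ℤ) := dif_pos hex
  refine ⟨M τ, mem_image_of_mem _ (mem_univ _), ?_, ?_⟩
  · rw [hMτ]
    exact_mod_cast Nat.find_min' hex hE
  · rw [hMτ]
    exact_mod_cast excSize_repel hd hn τ (Nat.find_spec hex) hE

end Pool.Agent.H8.KF
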