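import Pool.Agent.H8.KW.ExcR
import Pool.Agent.H8.KF.FinK

/-! # At most one window of exceptions for each clique of points at infinity -/

namespace Pool.Agent.H8.KF

open Finset Polynomial Pool.Agent.H72.ES Pool.Agent.H8.NoPt NumberField

theorem adjoin_scale {a1 a2 : ℤ} (h1 : a1 ≠ 0) (h2 : a2 ≠ 0) (θ1 θ2 : ℝ) :
    IntermediateField.adjoin ℚ ({θ1 / (a1 : ℝ), θ2 / (a2 : ℝ)} : Set ℝ) =
      IntermediateField.adjoin ℚ ({θ1, θ2} : Set ℝ) := by
  have ha1 : (a1 : ℝ) ≠ 0 := by exact_mod_cast h1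
  have ha2 : (a2 : ℝ) ≠ 0 := by exact_mod_cast h2
  apply le_antisymm
  · rw [IntermediateField.adjoin_le_iff]
    rintro x (rfl | hx)
    · exact div_mem (IntermediateField.subset_adjoin ℚ _ (Set.mem_insert _ _)) (intCast_mem _ _)
    · rw [Set.mem_singleton_iff] at hx
      subst hx
      exact div_mem (IntermediateField.subset_adjoin ℚ _ (Set.mem_insert_of_mem _ rfl))
        (intCast_mem _ _)
  · rw [IntermediateField.adjoin_le_iff]
    rintro x (rfl | hx)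
    · have e : x = (x / (a1 : ℝ)) * (a1 : ℝ) := by field_simp
      rw [e]
      refine mul_mem ?_ (intCast_mem _ _)
      rw [← e]
      exact IntermediateField.subset_adjoin ℚ _ (Set.mem_insert _ _)
    · rw [Set.mem_singleton_iff] at hx
      subst hx
      have e : x = (x / (a2 : ℝ)) * (a2 : ℝ) := by field_simp
      rw [e]
      refine mul_mem ?_ (intCast_mem _ _)
      rw [← e]
      exact IntermediateField.subset_adjoin ℚ _ (Set.mem_insert_of_mem _ rfl)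

/-- the exceptional sizes near a set of points at infinity -/
def SizeR (n : ℕ) (E : Set ℝ) (m : ℕ) : Prop :=
  ∃ (Q : ℕ) (f : ℤ[X]) (θ : ℝ) (F : ℕ → ℕ → ℤ) (x y a : ℤ), a ≠ 0 ∧
    ExcR n Q f θ F x y ∧ θ / (a : ℝ) ∈ E ∧ |(x : ℝ)| ≤ (m : ℝ) ∧ (m : ℝ) ≤ |(x : ℝ)| ^ 2

theorem sizeR_repel {n : ℕ} {E : Set ℝ} (hE : ∀ a ∈ E, ∀ b ∈ E,
      3 * Module.finrank ℚ (IntermediateField.adjoin ℚ ({a, b} : Set ℝ)) ≤ n ^ 2) {m1 m2 : ℕ}
    (h1 : SizeR n E m1) (h2 : SizeR n E m2) : m2 ≤ m1 ^ (4000 * n ^ 4) := by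
  obtain ⟨Q1, f1, θ1, F1, x1, y1, a1, ha1, he1, hE1, hl1, hu1⟩ := h1
  obtain ⟨Q2, f2, θ2, F2, x2, y2, a2, ha2, he2, hE2, hl2, hu2⟩ := h2
  have h3 := hE _ hE1 _ hE2
  rw [adjoin_scale ha1 ha2] at h3
  have hrep := excR_repel he1 he2 h3
  have h4 : (m2 : ℝ) ≤ (m1 : ℝ) ^ (4000 * n ^ 4) := by
    calc (m2 : ℝ) ≤ |(x2 : ℝ)| ^ 2 := hu2
      _ ≤ (|(x1 : ℝ)| ^ (2000 * n ^ 4)) ^ 2 := pow_le_pow_left₀ (abs_nonneg _) hrep _
      _ = |(x1 : ℝ)| ^ (4000 * n ^ 4) := by rw [← pow_mul]; congr 1; ring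
      _ ≤ (m1 : ℝ) ^ (4000 * n ^ 4) := pow_le_pow_left₀ (abs_nonneg _) hl1 _
  exact_mod_cast h4

/-- values of the leading form -/
theorem aeval_lead_real {n : ℕ} (G : MvPolynomial (Fin 2) ℤ) (η : ℝ) :
    MvPolynomial.aeval ![(1 : ℝ), η] (MvPolynomial.homogeneousComponent n G) =
      aeval η (leadQ n (arrM G)) := by
  rw [← aeval_lead]
  have h1 : ((aeval η : ℚ[X] →ₐ[ℚ] ℝ) : ℚ[X] →+* ℝ).comp
      ((MvPolynomial.aeval ![(1 : ℚ[X]), X] : MvPolynomial (Fin 2) ℤ →ₐ[ℤ] ℚ[X]) :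
        MvPolynomial (Fin 2) ℤ →+* ℚ[X]) =
      ((MvPolynomial.aeval ![(1 : ℝ), η] : MvPolynomial (Fin 2) ℤ →ₐ[ℤ] ℝ) :
        MvPolynomial (Fin 2) ℤ →+* ℝ) := by
    refine MvPolynomial.ringHom_ext (fun r => ?_) fun i => ?_
    · simp
    · fin_cases i <;> simp
  exact (DFunLike.congr_fun h1 _).symm

/-- **At most one window of exceptions for each clique of points at infinity.** -/
theorem windowsR {n : ℕ} (hn : 4 ≤ n) {ι : Type} [Fintype ι] (E : ι → Set ℝ)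
    (hE : ∀ i, ∀ a ∈ E i, ∀ b ∈ E i,
      3 * Module.finrank ℚ (IntermediateField.adjoin ℚ ({a, b} : Set ℝ)) ≤ n ^ 2) :
    ∃ S : Finset ℕ, S.card ≤ Fintype.card ι ∧
      ∀ (F : MvPolynomial (Fin 2) ℤ) (H : ℕ), F.totalDegree ≤ n →
        Irreducible (MvPolynomial.map (Int.castRingHom ℚ)
          (MvPolynomial.homogeneousComponent n F)) →
        (∀ η : ℝ, MvPolynomial.aeval ![(1 : ℝ), η] (MvPolynomial.homogeneousComponent n F) = 0 →
          ∃ i, η ∈ E i) →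
        2 ≤ H → (∀ m, |F.coeff m| ≤ (H : ℤ)) →
        ∀ x y : ℤ, MvPolynomial.eval ![x, y] F = 0 →
          max |x| |y| ≤ (H : ℤ) ^ (10 ^ 7 * n ^ 8) ∨
            ∃ M ∈ S, (M : ℤ) ≤ max |x| |y| ∧ max |x| |y| ≤ (M : ℤ) ^ (4000 * n ^ 4) := by
  classical
  let M : ι → ℕ := fun i =>
    if h : ∃ m : ℕ, SizeR n (E i) m then Nat.find h else 0
  refine ⟨univ.image M, card_image_le.trans (by rw [card_univ]), ?_⟩
  intro F H hdeg hirr hη hH hF x y hz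
  obtain ⟨ha, hirr'⟩ := leadQ_of_irreducible (by omega) hirr
  have hz' : ev n (arrM F) x y = 0 := by rw [← eval_arrM hdeg]; exact hz
  by_cases hsm : max |x| |y| ≤ (H : ℤ) ^ (10 ^ 7 * n ^ 8)
  · exact Or.inl hsm
  right
  obtain ⟨f, θ, F', y', hexc, hroot, hl, hu⟩ := excR_of_big hn (arrM F) ha hirr' H hH
    (fun i j _ => hF _) x y hz' hsm
  obtain ⟨i, hi⟩ := hη _ ((aeval_lead_real F _).trans hroot)
  obtain ⟨m, hm⟩ := Int.eq_ofNat_of_zero_le ((abs_nonneg x).trans (le_max_left |x| |y|))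
  rw [hm] at hl hu ⊢
  have hS : SizeR n (E i) m := ⟨_, f, θ, F', x, y', arrM F 0 n, ha, hexc, hi, by simpa using hl, by
    simpa using hu⟩
  have hex : ∃ m : ℕ, SizeR n (E i) m := ⟨m, hS⟩
  have hMi : M i = Nat.find hex := dif_pos hex
  refine ⟨M i, mem_image_of_mem _ (mem_univ _), ?_, ?_⟩
  · rw [hMi]
    exact_mod_cast Nat.find_min' hex hS
  · rw [hMi]
    exact_mod_cast sizeR_repel (hE i) (Nat.find_spec hex) hS

/-- the subfields of `ℝ` isomorphic to a number field form a finite set -/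
theorem finite_real (k : Type) [Field k] [NumberField k] :
    {K : Subfield ℝ | Nonempty (k ≃+* K)}.Finite := by
  refine (Set.finite_range fun τ : k →+* ℝ => τ.fieldRange).subset ?_
  rintro K ⟨e⟩
  refine ⟨K.subtype.comp (e : k →+* K), ?_⟩
  ext x
  constructor
  · rintro ⟨z, rfl⟩
    exact (e z).2
  · intro hx
    exact ⟨e.symm ⟨x, hx⟩, by simp⟩

/-- **At most one window of exceptions for each subfield of `ℝ` isomorphic to `k`.** -/
theorem windowsK {n : ℕ} (hn : 4 ≤ n) (k : Type) [Field k] [NumberField k]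
    (hk : 3 ≤ Module.finrank ℚ k) :
    ∃ S : Finset ℕ, S.card ≤ Set.ncard {K : Subfield ℝ | Nonempty (k ≃+* K)} ∧
      ∀ (F : MvPolynomial (Fin 2) ℤ) (H : ℕ), F.totalDegree ≤ n →
        Irreducible (MvPolynomial.map (Int.castRingHom ℚ)
          (MvPolynomial.homogeneousComponent n F)) →
        Nonempty (k →+* AdjoinRoot (MvPolynomial.aeval ![(1 : ℚ[X]), X]
          (MvPolynomial.homogeneousComponent n F))) →
        2 ≤ H → (∀ m, |F.coeff m| ≤ (H : ℤ)) →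
        ∀ x y : ℤ, MvPolynomial.eval ![x, y] F = 0 →
          max |x| |y| ≤ (H : ℤ) ^ (10 ^ 7 * n ^ 8) ∨
            ∃ M ∈ S, (M : ℤ) ≤ max |x| |y| ∧ max |x| |y| ≤ (M : ℤ) ^ (4000 * n ^ 4) := by
  have hfin := finite_real k
  have : Fintype {K : Subfield ℝ | Nonempty (k ≃+* K)} := hfin.fintype
  let E : {K : Subfield ℝ | Nonempty (k ≃+* K)} → Set ℝ := fun K =>
    {η | (∀ z ∈ (K : Subfield ℝ), z ∈ IntermediateField.adjoin ℚ ({η} : Set ℝ)) ∧
      Module.finrank ℚ (IntermediateField.adjoin ℚ ({η} : Set ℝ)) ≤ n}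
  obtain ⟨S, hS, hS'⟩ := windowsR hn E (by
    rintro ⟨K, ⟨e⟩⟩ a ⟨ha1, ha2⟩ b ⟨hb1, hb2⟩
    exact (Nat.mul_le_mul_right _ hk).trans (pair_deg k (K.subtype.comp (e : k →+* K)) ha2 hb2
      (fun z => ha1 _ (e z).2) (fun z => hb1 _ (e z).2)))
  refine ⟨S, by rwa [← Nat.card_coe_set_eq, Nat.card_eq_fintype_card], ?_⟩
  intro F H hdeg hirr hjk hH hF x y hz
  obtain ⟨ha, hirr'⟩ := leadQ_of_irreducible (by omega) hirr
  refine hS' F H hdeg hirr ?_ hH hF x y hz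
  intro η hη
  rw [aeval_lead_real] at hη
  rw [aeval_lead] at hjk
  obtain ⟨j⟩ := hjk
  obtain ⟨τ, hτ⟩ := real_place k hirr' j η hη
  refine ⟨⟨τ.fieldRange, ⟨τ.rangeRestrictFieldEquiv⟩⟩, ?_, ?_⟩
  · rintro z ⟨w, rfl⟩
    exact hτ w
  · have := real_deg hirr'.ne_zero hη
    rwa [leadQ_degree _ ha] at this

end Pool.Agent.H8.KF
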